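import Pool.Agent.Helper15_SIU.Stmts

/-!
# MP_021b97_an, module CHG: change of variables by the flop
-/

set_option autoImplicit false

open MeasureTheory Filter Topology
open scoped ENNReal

namespace Pool.Agent.SIU.H55

/-- replacing the arguments of a horizontal form modulo vertical vectors -/
theorem horiz_congr {k : ℕ} (z : E7) (η : Alt 7 k)
    (hη : ∀ (v : Fin k → E7) (i : Fin k), X2.Vert z (v i) → η v = 0)
    (v v' : Fin k → E7) (h : ∀ i, X2.Vert z (v i - v' i)) : η v = η v' := by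
  classical
  have key : ∀ s : Finset (Fin k), η (s.piecewise v v') = η v' := by
    intro s
    induction s using Finset.induction_on with
    | empty => simp
    | insert i s hi ih =>
      rw [Finset.piecewise_insert]
      set w := s.piecewise v v' with hw
      have hwi : w i = v' i := by
        rw [hw]
        exact Finset.piecewise_eq_of_notMem s v v' hi
      have h1 : v i = v' i + (v i - v' i) := by abel
      have h2 : Function.update w i (v i) = Function.update w i (v' i + (v i - v' i)) := by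
        rw [← h1]
      rw [h2]
      have h3 : η (Function.update w i (v' i + (v i - v' i))) =
          η (Function.update w i (v' i)) + η (Function.update w i (v i - v' i)) :=
        η.map_update_add w i (v' i) (v i - v' i)
      rw [h3, ← hwi, Function.update_eq_self]
      rw [hη (Function.update w i (v i - w i)) i (by rw [Function.update_self, hwi]; exact h i), add_zero]
      exact ih
  have := key Finset.univ
  simpa using this

/-- top degree forms and determinants -/
theorem top_det (ω : Alt 4 8) (D : (Fin 4 → ℂ) →ₗ[ℝ] (Fin 4 → ℂ)) (v : Fin 8 → Fin 4 → ℂ) :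
    ω (fun i => D (v i)) = LinearMap.det D * ω v := by
  have hr : Module.finrank ℝ (Fin 4 → ℂ) = 8 := by
    rw [Module.finrank_pi_fintype]
    simp [Complex.finrank_real_complex]
  let b : Module.Basis (Fin 8) ℝ (Fin 4 → ℂ) := Module.finBasisOfFinrankEq ℝ (Fin 4 → ℂ) hr
  have h1 : ω.toAlternatingMap = ω.toAlternatingMap b • b.det :=
    AlternatingMap.eq_smul_basis_det b ω.toAlternatingMap
  have h2 : ∀ u : Fin 8 → Fin 4 → ℂ, ω u = ω.toAlternatingMap b * b.det u := by
    intro u
    have := congrArg (fun f => f u) h1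
    simpa using this
  rw [h2, h2 v]
  have h3 : b.det (fun i => D (v i)) = LinearMap.det D * b.det v := b.det_comp D v
  rw [h3]
  ring

/-- the birational involution of the chart -/
noncomputable def phi (x : Fin 4 → ℂ) : Fin 4 → ℂ := ![x 1 / x 2, x 2 * x 0, x 2, x 3]

/-- its complex matrix -/
noncomputable def phiM (x : Fin 4 → ℂ) : Matrix (Fin 4) (Fin 4) ℂ :=
  !![0, 1 / x 2, - x 1 / x 2 ^ 2, 0; x 2, 0, x 0, 0; 0, 0, 1, 0; 0, 0, 0, 1]

/-- its derivative -/
noncomputable def phiD (x : Fin 4 → ℂ) : (Fin 4 → ℂ) →L[ℂ] (Fin 4 → ℂ) :=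
  LinearMap.toContinuousLinearMap (Matrix.toLin' (phiM x))

theorem phiD_apply (x v : Fin 4 → ℂ) : phiD x v =
    ![v 1 / x 2 - x 1 * v 2 / x 2 ^ 2, x 2 * v 0 + x 0 * v 2, v 2, v 3] := by
  funext m
  unfold phiD
  rw [LinearMap.coe_toContinuousLinearMap', Matrix.toLin'_apply]
  fin_cases m <;> simp [phiM, Matrix.mulVec, dotProduct, Fin.sum_univ_four]
  ring

theorem hasFDerivAt_phi (x : Fin 4 → ℂ) (hx : x 2 ≠ 0) :
    HasFDerivAt phi ((phiD x).restrictScalars ℝ) x := by
  have h : HasFDerivAt phi (phiD x) x := by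
    rw [hasFDerivAt_pi']
    have hp : ∀ i : Fin 4, HasFDerivAt (fun y : Fin 4 → ℂ => y i)
        (ContinuousLinearMap.proj (R := ℂ) (φ := fun _ : Fin 4 => ℂ) i) x := fun i => hasFDerivAt_apply i x
    intro m
    have hm : m = 0 ∨ m = 1 ∨ m = 2 ∨ m = 3 := by
      fin_cases m <;> simp
    rcases hm with rfl | rfl | rfl | rfl
    · have h1 := (hp 1).mul ((hasDerivAt_inv hx).comp_hasFDerivAt x (hp 2))
      refine (h1.congr_of_eventuallyEq ?_).congr_fderiv ?_
      · exact Filter.Eventually.of_forall fun y => by simp [phi, div_eq_mul_inv]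
      · ext v
        simp [phiD_apply]
        field_simp
        ring
    · have h1 := (hp 2).mul (hp 0)
      refine (h1.congr_of_eventuallyEq ?_).congr_fderiv ?_
      · exact Filter.Eventually.of_forall fun y => by simp [phi]
      · ext v
        simp [phiD_apply]
    · refine ((hp 2).congr_of_eventuallyEq ?_).congr_fderiv ?_
      · exact Filter.Eventually.of_forall fun y => by simp [phi]
      · ext v
        simp [phiD_apply]
    · refine ((hp 3).congr_of_eventuallyEq ?_).congr_fderiv ?_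
      · exact Filter.Eventually.of_forall fun y => by simp [phi]
      · ext v
        simp [phiD_apply]
  exact h.restrictScalars ℝ

theorem det_phiD (x : Fin 4 → ℂ) (hx : x 2 ≠ 0) :
    ((phiD x).restrictScalars ℝ : (Fin 4 → ℂ) →L[ℝ] (Fin 4 → ℂ)).det = 1 := by
  have h1 : ((phiD x).restrictScalars ℝ : (Fin 4 → ℂ) →L[ℝ] (Fin 4 → ℂ)).det =
      LinearMap.det ((Matrix.toLin' (phiM x)).restrictScalars ℝ) := rfl
  rw [h1, LinearMap.det_restrictScalars, LinearMap.det_toLin']
  have h2 : (phiM x).det = -1 := by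
    rw [phiM]
    simp [Matrix.det_succ_row_zero, Fin.sum_univ_succ]
    field_simp
    rfl
  rw [h2, Algebra.norm_complex_apply]
  simp

theorem phi_phi (x : Fin 4 → ℂ) (hx : x 2 ≠ 0) : phi (phi x) = x := by
  funext m
  fin_cases m <;> simp [phi] <;> field_simp

/-- the derivative of the lift of the flop -/
noncomputable def incL : (Fin 4 → ℂ) →L[ℂ] E7 :=
  ContinuousLinearMap.pi ![ContinuousLinearMap.proj 1, ContinuousLinearMap.proj 2,
    ContinuousLinearMap.proj 0, 0, 0, ContinuousLinearMap.proj 3, 0]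

theorem incL_eq (w : Fin 4 → ℂ) : incL w = ![w 1, w 2, w 0, 0, 0, w 3, 0] := by
  funext m
  fin_cases m <;> simp [incL]

theorem hasFDerivAt_flopL (x : Fin 4 → ℂ) :
    HasFDerivAt flopL (incL.restrictScalars ℝ) x := by
  have h : flopL = fun x => incL x + ![0, 0, 0, 1, 1, 0, 1] := by
    funext x m
    rw [incL_eq]
    fin_cases m <;> simp [flopL]
  rw [h]
  exact (incL.restrictScalars ℝ).hasFDerivAt.add_const _

theorem flopL_eq (x : Fin 4 → ℂ) (hx : x 2 ≠ 0) :
    flopL x = X2.act ![x 2, 1, 1] (sig (phi x)) := by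
  rw [act_eq]
  funext m
  fin_cases m <;> simp [flopL, sig, phi] <;> field_simp

theorem sig_eq (x : Fin 4 → ℂ) (hx : x 2 ≠ 0) :
    sig x = X2.act ![(x 2)⁻¹, 1, 1] (flop (sig (phi x))) := by
  rw [act_eq, flop_apply]
  funext m
  fin_cases m <;> simp [sig, phi] <;> field_simp

theorem c_ne (t : ℂ) (ht : t ≠ 0) : ∀ j : Fin 3, (![t, 1, 1] : Fin 3 → ℂ) j ≠ 0 := by
  intro j
  fin_cases j <;> simp [ht]

/-- the first argument -/
theorem pull_flopL (K : X2.Form 6) (x : Fin 4 → ℂ) (hx : x 2 ≠ 0) :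
    Toric.pull flopL K.1 x = (K.1 (sig (phi x))).compContinuousLinearMap
      ((inc.restrictScalars ℝ).comp ((phiD x).restrictScalars ℝ)) := by
  unfold Toric.pull
  rw [(hasFDerivAt_flopL x).fderiv]
  ext v
  show K.1 (flopL x) (fun i => incL (v i)) = K.1 (sig (phi x)) (fun i => inc (phiD x (v i)))
  obtain ⟨-, hb, -⟩ := K.2
  have hsU : sig (phi x) ∈ X2.U := sig_mem_U _
  have hc := c_ne (x 2) hx
  rw [← hb.1 (sig (phi x)) hsU ![x 2, 1, 1] hc (fun i => inc (phiD x (v i))), ← flopL_eq x hx]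
  have hfU : flopL x ∈ X2.U := by
    rw [flopL_eq x hx, act_mem_U hc]
    exact hsU
  apply horiz_congr (flopL x) (K.1 (flopL x)) (hb.2 (flopL x) hfU)
  intro i
  rw [vert_iff]
  refine ⟨v i 2 / x 2, 0, 0, ?_⟩
  rw [incL_eq, act_eq, inc_eq, phiD_apply]
  funext m
  fin_cases m <;> simp [flopL] <;> field_simp <;> ring

/-- the second argument -/
theorem pull_sig' (β : X2.Form 2) (x : Fin 4 → ℂ) (hx : x 2 ≠ 0) :
    Toric.pull X2.σ β.1 x = (lp (LL true) β.1 (sig (phi x))).compContinuousLinearMap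
      ((inc.restrictScalars ℝ).comp ((phiD x).restrictScalars ℝ)) := by
  rw [pull_sigma]
  ext v
  show β.1 (sig x) (fun i => inc (v i)) =
    β.1 (flop (sig (phi x))) (fun i => flop (inc (phiD x (v i))))
  obtain ⟨-, hb, -⟩ := β.2
  have hc := c_ne (x 2)⁻¹ (inv_ne_zero hx)
  have hsU : sig x ∈ X2.U := sig_mem_U _
  have hfU : flop (sig (phi x)) ∈ X2.U := by
    rw [← act_mem_U hc, ← sig_eq x hx]
    exact hsU
  rw [← hb.1 (flop (sig (phi x))) hfU ![(x 2)⁻¹, 1, 1] hc (fun i => flop (inc (phiD x (v i)))),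
    ← sig_eq x hx]
  apply horiz_congr (sig x) (β.1 (sig x)) (hb.2 (sig x) hsU)
  intro i
  rw [vert_iff]
  refine ⟨- (v i 2 / x 2), 0, 0, ?_⟩
  rw [flop_apply, act_eq, inc_eq, inc_eq, phiD_apply]
  funext m
  fin_cases m <;> simp [sig] <;> field_simp <;> ring

theorem chi_eq (η : E7 → Alt 7 8) (x : Fin 4 → ℂ) :
    chi η x = ((η (sig x)).compContinuousLinearMap (inc.restrictScalars ℝ)) (stdb 4 8) := rfl

theorem eval_comp (η : Alt 7 8) (D : (Fin 4 → ℂ) →L[ℝ] (Fin 4 → ℂ)) :
    (η.compContinuousLinearMap ((inc.restrictScalars ℝ).comp D)) (stdb 4 8) =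
      (η.compContinuousLinearMap (inc.restrictScalars ℝ)) (fun i => D (stdb 4 8 i)) := rfl

theorem key_eval (η : Alt 7 8) (x : Fin 4 → ℂ) (hx : x 2 ≠ 0) :
    (η.compContinuousLinearMap ((inc.restrictScalars ℝ).comp ((phiD x).restrictScalars ℝ))) (stdb 4 8) =
      (η.compContinuousLinearMap (inc.restrictScalars ℝ)) (stdb 4 8) := by
  have h1 := top_det (η.compContinuousLinearMap
    (inc.restrictScalars ℝ)) ((phiD x).restrictScalars ℝ : (Fin 4 → ℂ) →L[ℝ] (Fin 4 → ℂ)) (stdb 4 8)
  have h2 := det_phiD x hx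
  have h3 : LinearMap.det (((phiD x).restrictScalars ℝ : (Fin 4 → ℂ) →L[ℝ] (Fin 4 → ℂ)) :
    (Fin 4 → ℂ) →ₗ[ℝ] (Fin 4 → ℂ)) = 1 := h2
  rw [h3, one_mul] at h1
  rw [eval_comp]
  exact h1

theorem cast_eval (η : Alt 7 (6 + 2)) (ξ : Alt 7 8) (h : η = ξ) (L : (Fin 4 → ℂ) →L[ℝ] E7) :
    (η.compContinuousLinearMap L) (stdb 4 (6 + 2)) = (ξ.compContinuousLinearMap L) (stdb 4 8) := by
  subst h
  rfl

/-- the integrands agree -/
theorem integrand (h : WdgStmt) (K : X2.Form 6) (β : X2.Form 2) (x : Fin 4 → ℂ) (hx : x 2 ≠ 0) :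
    wedge (Toric.pull flopL K.1 x) (Toric.pull X2.σ β.1 x) (stdb 4 (6 + 2)) =
      chi (lamF true K.1 β.1) (phi x) := by
  obtain ⟨-, -, -, hnat, -⟩ := h 7 6 2
  rw [pull_flopL K x hx, pull_sig' β x hx, ← hnat]
  refine (cast_eval _ (lamF true K.1 β.1 (sig (phi x))) rfl _).trans ?_
  rw [chi_eq]
  exact key_eval (lamF true K.1 β.1 (sig (phi x))) x hx

theorem null_set : volume {x : Fin 4 → ℂ | x 2 = 0} = 0 := by
  have h := MeasureTheory.Measure.addHaar_submodule (volume : Measure (Fin 4 → ℂ))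
    (LinearMap.ker (LinearMap.proj (R := ℝ) (φ := fun _ : Fin 4 => ℂ) 2)) (by
      intro h
      have h1 : (Pi.single 2 1 : Fin 4 → ℂ) ∈ (LinearMap.ker (LinearMap.proj (R := ℝ) (φ := fun _ : Fin 4 => ℂ) 2)) := by
        rw [h]
        trivial
      rw [LinearMap.mem_ker] at h1
      simp at h1)
  refine (congrArg _ ?_).trans h
  ext x
  simp

theorem part2_int (h : WdgStmt) (K : E7 → Alt 7 6) (β : E7 → Alt 7 2) (x : Fin 4 → ℂ) :
    wedge (Toric.pull X2.σ K x) (Toric.pull X2.σ β x) (stdb 4 (6 + 2)) =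
      chi (lamF false K β) x := by
  obtain ⟨-, -, -, hnat, -⟩ := h 7 6 2
  have h0 : chi (lamF false K β) x =
      ((lamF false K β (sig x)).compContinuousLinearMap (inc.restrictScalars ℝ)) (stdb 4 8) :=
    chi_eq _ _
  rw [pull_sigma, pull_sigma, ← hnat, h0]
  have h1 : lp (LL false) β (sig x) = β (sig x) := by
    ext v
    rfl
  have h2 : (wedge (K (sig x)) (β (sig x)) : Alt 7 (6 + 2)) = lamF false K β (sig x) := by
    unfold lamF
    rw [h1]
  exact cast_eval _ _ h2 _

theorem part2 (h : WdgStmt) (K : E7 → Alt 7 6) (β : E7 → Alt 7 2) : X2.pair K β = Lam false K β :=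
  integral_congr_ae (Filter.Eventually.of_forall (part2_int h K β))

theorem part1 (h : WdgStmt) (K : X2.Form 6) (β : X2.Form 2) :
    X2.fpair flopL K.1 β.1 = Lam true K.1 β.1 := by
    set s : Set (Fin 4 → ℂ) := {x | x 2 ≠ 0} with hs
    have hsm : MeasurableSet s := (measurable_pi_apply 2 (measurableSet_singleton 0)).compl
    have hsn : volume sᶜ = 0 := by
      rw [← null_set]
      congr 1
      ext x
      simp [hs]
    have hae : s =ᵐ[volume] Set.univ := by
      rw [ae_eq_univ]
      exact hsn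
    have himg : phi '' s = s := by
      ext y
      constructor
      · rintro ⟨x, hx, rfl⟩
        show phi x 2 ≠ 0
        have hx' : x 2 ≠ 0 := hx
        simpa [phi] using hx'
      · intro hy
        have hy' : y 2 ≠ 0 := hy
        exact ⟨phi y, by show phi y 2 ≠ 0; simpa [phi] using hy', phi_phi y hy⟩
    have hinj : Set.InjOn phi s := by
      intro x hx y hy hxy
      rw [← phi_phi x hx, hxy, phi_phi y hy]
    have hcv := integral_image_eq_integral_abs_det_fderiv_smul volume hsm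
      (fun x hx => (hasFDerivAt_phi x hx).hasFDerivWithinAt) hinj (chi (lamF true K.1 β.1))
    rw [himg] at hcv
    have e1 : ∫ x in s, chi (lamF true K.1 β.1) x = ∫ x in s, chi (lamF true K.1 β.1) (phi x) := by
      rw [hcv]
      apply setIntegral_congr_fun hsm
      intro x hx
      simp only [det_phiD x hx, abs_one, one_smul]
    have e2 : ∀ f : (Fin 4 → ℂ) → ℝ, ∫ x in s, f x = ∫ x, f x := by
      intro f
      rw [setIntegral_congr_set hae, setIntegral_univ]
    have e3 : X2.fpair flopL K.1 β.1 = ∫ x in s, chi (lamF true K.1 β.1) (phi x) := by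
      rw [← setIntegral_congr_fun hsm (fun x hx => integrand h K β x hx), e2]
      rfl
    rw [e3, ← e1, e2]
    rfl

theorem chg (h : WdgStmt) : ChgStmt := ⟨part1 h, part2 h⟩

end Pool.Agent.SIU.H55
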