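import Pool.Agent.Helper15_SIU.Stmts

/-!
# MP_021b97_an, module TCL: the current is closed
-/

set_option autoImplicit false

open MeasureTheory Filter Topology
open scoped ENNReal ContDiff

namespace Pool.Agent.SIU.H55T

/-- a family of cut-off functions on the plane -/
theorem cutoffs : ∃ (χ : ℕ → ℂ → ℝ) (M : ℝ), 0 ≤ M ∧ (∀ n, ContDiff ℝ ∞ (χ n)) ∧
    (∀ n, HasCompactSupport (χ n)) ∧ (∀ n ζ, |χ n ζ| ≤ 1) ∧
    (∀ ζ, ∀ᶠ n in atTop, χ n ζ = 1) ∧
    (∀ (n : ℕ) (ζ : ℂ), ‖fderiv ℝ (χ n) ζ‖ ≤ M / (n + 1)) ∧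
    (∀ (n : ℕ) (ζ : ℂ), fderiv ℝ (χ n) ζ ≠ 0 → (n : ℝ) + 1 ≤ ‖ζ‖ ∧ ‖ζ‖ ≤ 2 * (n + 1)) := by
  let f : ContDiffBump (0 : ℂ) := ⟨1, 2, one_pos, one_lt_two⟩
  have hfs : ContDiff ℝ ∞ f := f.contDiff
  have hcs : HasCompactSupport f := f.hasCompactSupport
  have hfc : Continuous (fderiv ℝ f) := hfs.continuous_fderiv (by simp)
  have hfcs : HasCompactSupport (fderiv ℝ f) := hcs.fderiv ℝ
  obtain ⟨M, hM⟩ := hfc.bounded_above_of_compact_support hfcs
  have hfd : ∀ (n : ℕ) (ζ : ℂ), HasFDerivAt (fun w : ℂ => f (((n : ℝ) + 1)⁻¹ • w))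
      ((fderiv ℝ f (((n : ℝ) + 1)⁻¹ • ζ)).comp (((n : ℝ) + 1)⁻¹ • ContinuousLinearMap.id ℝ ℂ)) ζ := by
    intro n ζ
    have h1 : HasFDerivAt (fun w : ℂ => ((n : ℝ) + 1)⁻¹ • w)
        (((n : ℝ) + 1)⁻¹ • ContinuousLinearMap.id ℝ ℂ) ζ :=
      (((n : ℝ) + 1)⁻¹ • ContinuousLinearMap.id ℝ ℂ).hasFDerivAt
    have h2 : HasFDerivAt f (fderiv ℝ f (((n : ℝ) + 1)⁻¹ • ζ)) (((n : ℝ) + 1)⁻¹ • ζ) :=
      (hfs.differentiable (by simp) _).hasFDerivAt
    exact h2.comp ζ h1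
  refine ⟨fun n w => f (((n : ℝ) + 1)⁻¹ • w), M, (norm_nonneg _).trans (hM 0), ?_, ?_, ?_, ?_, ?_, ?_⟩
  · intro n
    exact hfs.comp (contDiff_const_smul _)
  · intro n
    exact hcs.comp_smul (by positivity)
  · intro n ζ
    rw [abs_of_nonneg f.nonneg]
    exact f.le_one
  · intro ζ
    obtain ⟨N, hN⟩ := exists_nat_ge ‖ζ‖
    filter_upwards [eventually_ge_atTop N] with n hn
    apply f.one_of_mem_closedBall
    rw [mem_closedBall_zero_iff, norm_smul, norm_inv, Real.norm_of_nonneg (by positivity)]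
    show ((n : ℝ) + 1)⁻¹ * ‖ζ‖ ≤ 1
    rw [inv_mul_le_iff₀ (by positivity), mul_one]
    have : (N : ℝ) ≤ n := by exact_mod_cast hn
    linarith
  · intro n ζ
    rw [(hfd n ζ).fderiv]
    have h1 : (fderiv ℝ f (((n : ℝ) + 1)⁻¹ • ζ)).comp (((n : ℝ) + 1)⁻¹ • ContinuousLinearMap.id ℝ ℂ) =
        ((n : ℝ) + 1)⁻¹ • fderiv ℝ f (((n : ℝ) + 1)⁻¹ • ζ) := by
      ext1
      simp
    rw [h1, norm_smul, norm_inv, Real.norm_of_nonneg (by positivity), div_eq_inv_mul]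
    exact mul_le_mul_of_nonneg_left (hM _) (by positivity)
  · intro n ζ hne
    rw [(hfd n ζ).fderiv] at hne
    have hne' : fderiv ℝ f (((n : ℝ) + 1)⁻¹ • ζ) ≠ 0 := by
      intro h
      apply hne
      rw [h]
      exact ContinuousLinearMap.zero_comp _
    have hnn : ‖((n : ℝ) + 1)⁻¹ • ζ‖ = ((n : ℝ) + 1)⁻¹ * ‖ζ‖ := by
      rw [norm_smul, norm_inv, Real.norm_of_nonneg (by positivity)]
    constructor
    · by_contra hlt
      push Not at hlt
      apply hne'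
      have hmem : ((n : ℝ) + 1)⁻¹ • ζ ∈ Metric.ball (0 : ℂ) f.rIn := by
        rw [mem_ball_zero_iff, hnn]
        show ((n : ℝ) + 1)⁻¹ * ‖ζ‖ < 1
        rw [inv_mul_lt_iff₀ (by positivity), mul_one]
        exact hlt
      have hev : f =ᶠ[𝓝 (((n : ℝ) + 1)⁻¹ • ζ)] fun _ => (1 : ℝ) := by
        filter_upwards [Metric.isOpen_ball.mem_nhds hmem] with w hw
        exact f.one_of_mem_closedBall (Metric.ball_subset_closedBall hw)
      rw [hev.fderiv_eq]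
      simp
    · by_contra hlt
      push Not at hlt
      apply hne'
      have h2 : ((n : ℝ) + 1)⁻¹ • ζ ∉ tsupport f := by
        rw [f.tsupport_eq, mem_closedBall_zero_iff, hnn]
        show ¬ ((n : ℝ) + 1)⁻¹ * ‖ζ‖ ≤ 2
        rw [inv_mul_le_iff₀ (by positivity), not_le]
        linarith
      have h3 := support_fderiv_subset ℝ (f := f)
      by_contra h4
      exact h2 (h3 (Function.mem_support.2 h4))

/-- the boundary term -/
theorem bterm {χ : ℕ → ℂ → ℝ} {M : ℝ} (hM : 0 ≤ M)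
    (h5 : ∀ (n : ℕ) (ζ : ℂ), ‖fderiv ℝ (χ n) ζ‖ ≤ M / (n + 1))
    (h6 : ∀ (n : ℕ) (ζ : ℂ), fderiv ℝ (χ n) ζ ≠ 0 → (n : ℝ) + 1 ≤ ‖ζ‖ ∧ ‖ζ‖ ≤ 2 * (n + 1))
    (Q : ℂ → ℝ) (C : ℝ) (hC : 0 ≤ C) (hQ : ∀ ζ, |Q ζ| ≤ C / (1 + ‖ζ‖ ^ 2)) (v : ℂ) (hv : ‖v‖ = 1) :
    Tendsto (fun n => ∫ ζ, fderiv ℝ (χ n) ζ v * Q ζ) atTop (𝓝 0) := by
  have hb : ∀ n : ℕ, ‖∫ ζ, fderiv ℝ (χ n) ζ v * Q ζ‖ ≤ 4 * Real.pi * M * C * ((n : ℝ) + 1)⁻¹ := by
    intro n
    have hn : (0 : ℝ) < (n : ℝ) + 1 := by positivity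
    have hpt : ∀ ζ, ‖fderiv ℝ (χ n) ζ v * Q ζ‖ ≤ (M / (n + 1)) * (C / (1 + ((n : ℝ) + 1) ^ 2)) := by
      intro ζ
      by_cases h : fderiv ℝ (χ n) ζ = 0
      · rw [h]
        simp only [_root_.zero_apply, zero_mul, norm_zero]
        positivity
      · rw [norm_mul]
        refine mul_le_mul ?_ ?_ (norm_nonneg _) (by positivity)
        · refine (ContinuousLinearMap.le_opNorm _ _).trans ?_
          rw [hv, mul_one]
          exact h5 n ζ
        · refine (hQ ζ).trans ?_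
          have := (h6 n ζ h).1
          gcongr
    have hset : ∫ ζ, fderiv ℝ (χ n) ζ v * Q ζ = ∫ ζ in Metric.closedBall (0 : ℂ) (2 * (n + 1)), fderiv ℝ (χ n) ζ v * Q ζ := by
      rw [setIntegral_eq_integral_of_forall_compl_eq_zero]
      intro ζ hζ
      have : fderiv ℝ (χ n) ζ = 0 := by
        by_contra h
        exact hζ (mem_closedBall_zero_iff.2 (h6 n ζ h).2)
      rw [this]
      simp
    rw [hset]
    have hvol : volume.real (Metric.closedBall (0 : ℂ) (2 * (n + 1))) = Real.pi * (2 * (n + 1)) ^ 2 := by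
      rw [Measure.real, Complex.volume_closedBall, ENNReal.toReal_mul, ENNReal.toReal_pow,
        ENNReal.toReal_ofReal (by positivity)]
      rw [mul_comm]
      rfl
    refine (norm_setIntegral_le_of_norm_le_const (C := (M / (n + 1)) * (C / (1 + ((n : ℝ) + 1) ^ 2))) ?_ fun ζ _ => hpt ζ).trans ?_
    · rw [Complex.volume_closedBall]
      exact ENNReal.mul_lt_top (ENNReal.pow_lt_top ENNReal.ofReal_lt_top) ENNReal.coe_lt_top
    · rw [hvol]
      have h1 : C / (1 + ((n : ℝ) + 1) ^ 2) ≤ C / ((n : ℝ) + 1) ^ 2 := by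
        gcongr
        linarith
      calc (M / (n + 1)) * (C / (1 + ((n : ℝ) + 1) ^ 2)) * (Real.pi * (2 * (n + 1)) ^ 2)
          ≤ (M / (n + 1)) * (C / ((n : ℝ) + 1) ^ 2) * (Real.pi * (2 * (n + 1)) ^ 2) := by gcongr
        _ = 4 * Real.pi * M * C * ((n : ℝ) + 1)⁻¹ := by
            field_simp
            ring
  refine squeeze_zero_norm hb ?_
  have h1 : Tendsto (fun n : ℕ => ((n : ℝ) + 1)⁻¹) atTop (𝓝 0) := by
    have := tendsto_one_div_add_atTop_nhds_zero_nat (𝕜 := ℝ)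
    simpa [one_div] using this
  simpa using h1.const_mul (4 * Real.pi * M * C)

/-- Stokes on the plane for forms with decay. -/
theorem stokes2 (P Q : ℂ → ℝ) (hP : ContDiff ℝ 1 P) (hQ : ContDiff ℝ 1 Q) (C : ℝ) (hC : 0 ≤ C)
    (hPb : ∀ ζ, |P ζ| ≤ C / (1 + ‖ζ‖ ^ 2)) (hQb : ∀ ζ, |Q ζ| ≤ C / (1 + ‖ζ‖ ^ 2)) :
    ∫ ζ, (fderiv ℝ Q ζ 1 - fderiv ℝ P ζ Complex.I) = 0 := by
  by_cases hint : Integrable (fun ζ => fderiv ℝ Q ζ 1 - fderiv ℝ P ζ Complex.I)
  swap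
  · exact integral_undef hint
  obtain ⟨χ, M, hM, h1, h2, h3, h4, h5, h6⟩ := cutoffs
  have hparts : ∀ (n : ℕ) (R : ℂ → ℝ), ContDiff ℝ 1 R → ∀ v : ℂ,
      Integrable (fun ζ => χ n ζ * fderiv ℝ R ζ v) ∧
      ∫ ζ, χ n ζ * fderiv ℝ R ζ v = - ∫ ζ, fderiv ℝ (χ n) ζ v * R ζ := by
    intro n R hR v
    have hχc : Continuous (χ n) := (h1 n).continuous
    have hRd : Continuous (fun ζ => fderiv ℝ R ζ v) :=
      (hR.continuous_fderiv (by simp)).clm_apply continuous_const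
    have hχd : Continuous (fun ζ => fderiv ℝ (χ n) ζ v) :=
      ((h1 n).continuous_fderiv (by simp)).clm_apply continuous_const
    have i1 : Integrable (fun ζ => χ n ζ * fderiv ℝ R ζ v) :=
      (hχc.mul hRd).integrable_of_hasCompactSupport (h2 n).mul_right
    refine ⟨i1, ?_⟩
    apply integral_mul_fderiv_eq_neg_fderiv_mul_of_integrable
    · have hcs : HasCompactSupport (fun ζ => fderiv ℝ (χ n) ζ v) := by
        refine ((h2 n).fderiv ℝ).comp_left (g := fun L : ℂ →L[ℝ] ℝ => L v) (by simp)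
      exact (hχd.mul hR.continuous).integrable_of_hasCompactSupport hcs.mul_right
    · exact i1
    · exact (hχc.mul hR.continuous).integrable_of_hasCompactSupport (h2 n).mul_right
    · exact fun x _ => (h1 n).differentiable (by simp) x
    · exact fun x _ => hR.differentiable (by simp) x
  have t1 := bterm hM h5 h6 Q C hC hQb 1 (by simp)
  have t2 := bterm hM h5 h6 P C hC hPb Complex.I (by simp)
  have hlim1 : Tendsto (fun n => ∫ ζ, χ n ζ * (fderiv ℝ Q ζ 1 - fderiv ℝ P ζ Complex.I)) atTop (𝓝 0) := by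
    have he : ∀ n, ∫ ζ, χ n ζ * (fderiv ℝ Q ζ 1 - fderiv ℝ P ζ Complex.I) =
        - (∫ ζ, fderiv ℝ (χ n) ζ 1 * Q ζ) + ∫ ζ, fderiv ℝ (χ n) ζ Complex.I * P ζ := by
      intro n
      have e1 := hparts n Q hQ 1
      have e2 := hparts n P hP Complex.I
      have e3 : (fun ζ => χ n ζ * (fderiv ℝ Q ζ 1 - fderiv ℝ P ζ Complex.I)) =
          fun ζ => χ n ζ * fderiv ℝ Q ζ 1 - χ n ζ * fderiv ℝ P ζ Complex.I := by
        funext ζ
        ring
      rw [e3, integral_sub e1.1 e2.1, e1.2, e2.2]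
      ring
    simp_rw [he]
    simpa using t1.neg.add t2
  have hlim2 : Tendsto (fun n => ∫ ζ, χ n ζ * (fderiv ℝ Q ζ 1 - fderiv ℝ P ζ Complex.I)) atTop
      (𝓝 (∫ ζ, (fderiv ℝ Q ζ 1 - fderiv ℝ P ζ Complex.I))) := by
    apply tendsto_integral_of_dominated_convergence (fun ζ => ‖fderiv ℝ Q ζ 1 - fderiv ℝ P ζ Complex.I‖)
    · intro n
      exact ((h1 n).continuous.aestronglyMeasurable).mul hint.aestronglyMeasurable
    · exact hint.norm
    · intro n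
      filter_upwards with ζ
      rw [norm_mul]
      have := h3 n ζ
      rw [← Real.norm_eq_abs] at this
      exact mul_le_of_le_one_left (norm_nonneg _) this
    · filter_upwards with ζ
      refine tendsto_const_nhds.congr' ?_
      filter_upwards [h4 ζ] with n hn
      rw [hn, one_mul]
  exact tendsto_nhds_unique hlim2 hlim1

theorem e0_smul (u : ℂ) : u • e0 = ![u, 0, 0, 0, 0, 0, 0] := by
  funext m
  fin_cases m <;> simp [e0]

theorem pt_mem (ζ : ℂ) (y : ℝ) : pt ζ y ∈ X2.U := by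
  rw [mem_U]
  simp [pt]

theorem norm7_le {v : E7} {r : ℝ} (hr : 0 ≤ r) (h : ∀ i, ‖v i‖ ≤ r) : ‖v‖ ≤ r :=
  (pi_norm_le_iff_of_nonneg hr).2 h

/-- decay of basic one-forms along the curve -/
theorem decay (η : X2.Form 1) (y : ℝ) : ∃ C : ℝ, 0 ≤ C ∧ ∀ (ζ u : ℂ), ‖u‖ = 1 →
    |η.1 (pt ζ y) (fun _ => u • e0)| ≤ C / (1 + ‖ζ‖ ^ 2) := by
  obtain ⟨hc, hb, -⟩ := η.2
  obtain ⟨C, hC⟩ := isCompact_Shell.exists_bound_of_continuousOn (hc.mono Shell_subset)
  refine ⟨max C 0, le_max_right _ _, ?_⟩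
  intro ζ u hu
  set r : ℝ := √(1 + ‖ζ‖ ^ 2) with hr
  have hrpos : 0 < r := Real.sqrt_pos.2 (by positivity)
  have hr2 : r ^ 2 = 1 + ‖ζ‖ ^ 2 := Real.sq_sqrt (by positivity)
  set s : ℝ := √(1 + y ^ 2) with hs
  have hspos : 0 < s := Real.sqrt_pos.2 (by positivity)
  have hs2 : s ^ 2 = 1 + y ^ 2 := Real.sq_sqrt (by positivity)
  have hrC : (r : ℂ) ≠ 0 := by exact_mod_cast hrpos.ne'
  have hsC : (s : ℂ) ≠ 0 := by exact_mod_cast hspos.ne'
  have hconj : ζ * (starRingEnd ℂ) ζ = ((‖ζ‖ ^ 2 : ℝ) : ℂ) := by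
    rw [Complex.mul_conj, Complex.normSq_eq_norm_sq]
  have hr2C : (r : ℂ) ^ 2 = 1 + ζ * (starRingEnd ℂ) ζ := by
    rw [hconj]
    exact_mod_cast hr2
  set w : E7 := ![u / r ^ 2, - (u * (starRingEnd ℂ) ζ / r ^ 2), 0, 0, 0, 0, 0] with hw
  -- replace by the horizontal vector
  have e1 : η.1 (pt ζ y) (fun _ => u • e0) = η.1 (pt ζ y) (fun _ => w) := by
    have hv : X2.Vert (pt ζ y) (u • e0 - w) := by
      rw [vert_iff]
      refine ⟨u * (starRingEnd ℂ) ζ / r ^ 2, 0, 0, ?_⟩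
      rw [e0_smul, hw]
      funext m
      fin_cases m <;> simp [pt]
      · field_simp
        rw [hr2C]
        ring
    have h1 : (fun _ : Fin 1 => u • e0) = (fun _ => w) + fun _ => (u • e0 - w) := by
      funext i
      simp
    have h2 : η.1 (pt ζ y) (fun _ => (u • e0 - w)) = 0 :=
      hb.2 (pt ζ y) (pt_mem ζ y) (fun _ => (u • e0 - w)) 0 hv
    have h3 : ∀ a b : E7, η.1 (pt ζ y) (fun _ : Fin 1 => a + b) =
        η.1 (pt ζ y) (fun _ => a) + η.1 (pt ζ y) (fun _ => b) := by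
      intro a b
      have := (η.1 (pt ζ y)).map_update_add (fun _ : Fin 1 => a) 0 a b
      have hh : ∀ x : E7, Function.update (fun _ : Fin 1 => a) 0 x = fun _ => x := by
        intro x
        funext i
        rw [Subsingleton.elim i 0, Function.update_self]
      rw [hh, hh, hh] at this
      exact this
    have h4 : u • e0 = w + (u • e0 - w) := by abel
    calc η.1 (pt ζ y) (fun _ => u • e0) = η.1 (pt ζ y) (fun _ => w + (u • e0 - w)) := by rw [← h4]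
      _ = _ := by rw [h3, h2, add_zero]
  -- move to the shell
  set c : Fin 3 → ℂ := ![(r : ℂ)⁻¹, 1, (s : ℂ)⁻¹] with hcdef
  have hc0 : ∀ j, c j ≠ 0 := by
    intro j
    fin_cases j <;> simp [hcdef, hrC, hsC]
  have e2 : η.1 (pt ζ y) (fun _ => w) = η.1 (X2.act c (pt ζ y)) (fun _ => X2.act c w) :=
    (hb.1 (pt ζ y) (pt_mem ζ y) c hc0 (fun _ => w)).symm
  have hnr : ‖(r : ℂ)‖ = r := by rw [Complex.norm_real, Real.norm_of_nonneg hrpos.le]
  have hns : ‖(s : ℂ)‖ = s := by rw [Complex.norm_real, Real.norm_of_nonneg hspos.le]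
  have hshell : X2.act c (pt ζ y) ∈ Shell := by
    have hA : AA (X2.act c (pt ζ y)) = 1 := by
      rw [AA_act]
      simp only [hcdef, pt, AA, Matrix.cons_val_zero, Matrix.cons_val_one, norm_inv, hnr, norm_one]
      field_simp
      rw [hr2]
      ring
    have hD : DD (X2.act c (pt ζ y)) = 1 := by
      rw [DD_act hc0]
      simp [hcdef, pt, DD]
    have hY : YY (X2.act c (pt ζ y)) = 1 := by
      rw [YY_act]
      simp [hcdef, pt, YY]
      rw [add_comm (y ^ 2) 1, ← hs2]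
      field_simp
    show _ ∧ _
    rw [hA, hD, hY]
    norm_num
  have hw' : ‖X2.act c w‖ ≤ 1 / r ^ 2 := by
    have hζr : ‖ζ‖ ≤ r := by
      rw [hr]
      apply Real.le_sqrt_of_sq_le
      linarith
    have h1r : 1 ≤ r := by
      rw [hr]
      apply Real.le_sqrt_of_sq_le
      nlinarith [norm_nonneg ζ]
    rw [act_eq]
    apply norm7_le (by positivity)
    intro i
    fin_cases i
    · simp only [hcdef, hw, Matrix.cons_val_zero, Matrix.cons_val_one]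
      show ‖(r : ℂ)⁻¹ * (u / r ^ 2)‖ ≤ _
      rw [norm_mul, norm_inv, norm_div, norm_pow, hnr, hu]
      have : r⁻¹ ≤ 1 := inv_le_one_of_one_le₀ h1r
      exact mul_le_of_le_one_left (by positivity) this
    · show ‖(r : ℂ)⁻¹ * (-(u * (starRingEnd ℂ) ζ / r ^ 2))‖ ≤ _
      rw [norm_mul, norm_inv, norm_neg, norm_div, norm_mul, norm_pow, hnr, hu, RCLike.norm_conj, one_mul,
        ← mul_div_assoc]
      apply div_le_div_of_nonneg_right _ (by positivity)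
      rw [inv_mul_le_iff₀ hrpos, mul_one]
      exact hζr
    all_goals
      simp [hw]
      try positivity
  rw [e1, e2, ← Real.norm_eq_abs]
  refine (ContinuousAlternatingMap.le_opNorm _ _).trans ?_
  rw [← hr2]
  have h5 : ∏ _i : Fin 1, ‖X2.act c w‖ ≤ 1 / r ^ 2 := by
    simpa using hw'
  calc ‖η.1 (X2.act c (pt ζ y))‖ * ∏ _i : Fin 1, ‖X2.act c w‖
      ≤ max C 0 * (1 / r ^ 2) :=
        mul_le_mul ((hC _ hshell).trans (le_max_left _ _)) h5 (by positivity) (le_max_right _ _)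
    _ = max C 0 / r ^ 2 := by ring

theorem hasFDerivAt_pt (y : ℝ) (ζ : ℂ) :
    HasFDerivAt (fun ζ => pt ζ y) ((ContinuousLinearMap.id ℝ ℂ).smulRight e0) ζ := by
  have h : (fun ζ => pt ζ y) = fun ζ => ((ContinuousLinearMap.id ℝ ℂ).smulRight e0) ζ + ![0, 1, 0, 0, 1, (y : ℂ), 1] := by
    funext ζ m
    fin_cases m <;> simp [pt, e0]
  rw [h]
  exact ((ContinuousLinearMap.id ℝ ℂ).smulRight e0).hasFDerivAt.add_const _

theorem contDiff_pt (y : ℝ) : ContDiff ℝ ∞ (fun ζ : ℂ => pt ζ y) := by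
  have h : (fun ζ => pt ζ y) = fun ζ => ((ContinuousLinearMap.id ℝ ℂ).smulRight e0) ζ + ![0, 1, 0, 0, 1, (y : ℂ), 1] := by
    funext ζ m
    fin_cases m <;> simp [pt, e0]
  rw [h]
  exact ((ContinuousLinearMap.id ℝ ℂ).smulRight e0).contDiff.add contDiff_const

/-- evaluation of a one-form on a vector -/
noncomputable def ev1 (v : E7) : Alt 7 1 →L[ℝ] ℝ :=
  ContinuousAlternatingMap.apply ℝ E7 ℝ (fun _ : Fin 1 => v)

theorem inner_zero (η : X2.Form 1) (hη : X2.Smooth η.1) (y : ℝ) :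
    ∫ ζ : ℂ, extDeriv η.1 (pt ζ y) (cvec (fun _ => e0) 2) = 0 := by
  obtain ⟨C, hC, hdec⟩ := decay η y
  have hsm : ContDiff ℝ ∞ (fun ζ : ℂ => η.1 (pt ζ y)) := by
    rw [contDiff_iff_contDiffAt]
    intro ζ
    have h1 : ContDiffAt ℝ ∞ η.1 (pt ζ y) := hη.contDiffAt (isOpen_U.mem_nhds (pt_mem ζ y))
    exact h1.comp ζ (contDiff_pt y).contDiffAt
  have hd : ∀ ζ : ℂ, DifferentiableAt ℝ η.1 (pt ζ y) := fun ζ =>
    (hη.contDiffAt (isOpen_U.mem_nhds (pt_mem ζ y))).differentiableAt (by simp)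
  have hPQ : ∀ v : E7, ContDiff ℝ 1 (fun ζ : ℂ => η.1 (pt ζ y) (fun _ => v)) := by
    intro v
    have h1 : ContDiff ℝ ∞ (fun ζ : ℂ => ev1 v (η.1 (pt ζ y))) := (ev1 v).contDiff.comp hsm
    exact h1.of_le (by norm_cast)
  have hfd : ∀ (ζ : ℂ) (v : E7) (u : ℂ), fderiv ℝ (fun ζ : ℂ => η.1 (pt ζ y) (fun _ => v)) ζ u =
      fderiv ℝ η.1 (pt ζ y) (u • e0) (fun _ => v) := by
    intro ζ v u
    have h1 : HasFDerivAt (fun ζ : ℂ => η.1 (pt ζ y) (fun _ => v))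
        ((ev1 v).comp ((fderiv ℝ η.1 (pt ζ y)).comp ((ContinuousLinearMap.id ℝ ℂ).smulRight e0))) ζ :=
      (ev1 v).hasFDerivAt.comp ζ ((hd ζ).hasFDerivAt.comp ζ (hasFDerivAt_pt y ζ))
    rw [h1.fderiv]
    rfl
  have key := stokes2 (fun ζ => η.1 (pt ζ y) (fun _ => (1 : ℂ) • e0)) (fun ζ => η.1 (pt ζ y) (fun _ => Complex.I • e0))
    (hPQ _) (hPQ _) C hC (fun ζ => hdec ζ 1 (by simp)) (fun ζ => hdec ζ Complex.I (by simp))
  rw [← key]
  congr 1
  funext ζ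
  rw [hfd, hfd]
  have h0 : extDeriv η.1 (pt ζ y) (cvec (fun _ => e0) 2) =
      ∑ i : Fin 2, (-1) ^ i.val • fderiv ℝ η.1 (pt ζ y) (cvec (fun _ => e0) 2 i)
        (i.removeNth (cvec (fun _ => e0) 2)) := by
    rw [extDeriv_apply (hd ζ)]
    refine Finset.sum_congr rfl fun i _ => ?_
    congr 1
    have h2 : HasFDerivAt (fun z => η.1 z (i.removeNth (cvec (fun _ => e0) 2)))
        ((ContinuousAlternatingMap.apply ℝ E7 ℝ (i.removeNth (cvec (fun _ => e0) 2))).comp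
          (fderiv ℝ η.1 (pt ζ y))) (pt ζ y) :=
      (ContinuousAlternatingMap.apply ℝ E7 ℝ (i.removeNth (cvec (fun _ => e0) 2))).hasFDerivAt.comp _
        (hd ζ).hasFDerivAt
    rw [h2.fderiv]
    rfl
  rw [h0, Fin.sum_univ_two]
  have c0 : cvec (fun _ => e0) 2 (0 : Fin 2) = (1 : ℂ) • e0 := by simp [cvec]
  have c1 : cvec (fun _ => e0) 2 (1 : Fin 2) = Complex.I • e0 := by simp [cvec]
  have r0 : (0 : Fin 2).removeNth (cvec (fun _ => e0) 2) = fun _ => Complex.I • e0 := by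
    funext j
    rw [Subsingleton.elim j 0]
    exact c1
  have r1 : (1 : Fin 2).removeNth (cvec (fun _ => e0) 2) = fun _ => (1 : ℂ) • e0 := by
    funext j
    rw [Subsingleton.elim j 0]
    exact c0
  rw [c0, c1, r0, r1]
  simp
  ring

theorem tcl : TclStmt := by
  intro 𝕂 _ T hT k hk η hη β hβ
  obtain rfl : k = 1 := by omega
  rw [hT]
  have h1 : ∀ y : ℝ, ∫ ζ : ℂ, β.1 (pt ζ y) (cvec (fun _ => e0) (2 * 1)) = 0 := by
    intro y
    rw [← inner_zero η hη y]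
    congr 1
    funext ζ
    rw [hβ _ (pt_mem ζ y)]
    rfl
  simp_rw [h1]
  simp

end Pool.Agent.SIU.H55T
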